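import Mathlib
import Pool.Agent.Lib.helper21.Queue

set_option autoImplicit false

namespace Pool.Agent.Results.MP_86fe4b_lc.Undecidable

open Function Pool.Agent.Lib.helper21.While Pool.Agent.Lib.helper21.Mach

universe u

/-- Terms over variables, implication and composition (no constants). -/
inductive Tm
  | var : ℕ → Tm
  | imp : Tm → Tm → Tm
  | comp : Tm → Tm → Tm

/-- Goedel numbering of terms. -/
def Tm.code : Tm → ℕ
  | var n => Nat.pair 0 n
  | imp s t => Nat.pair 1 (Nat.pair s.code t.code)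
  | comp s t => Nat.pair 2 (Nat.pair s.code t.code)

/-- Value of a term in the full implication semigroup on the subsets of `T`. -/
def Tm.ev {X : Type u} (T : Set (X × X)) (v : ℕ → Set (X × X)) : Tm → Set (X × X)
  | var n => v n
  | imp s t => (T \ s.ev T v) ∪ t.ev T v
  | comp s t => {p | ∃ y, (p.1, y) ∈ s.ev T v ∧ (y, p.2) ∈ t.ev T v}

/-- The equation holds in the full implication semigroup of every transitive relation. -/
def Valid (s t : Tm) : Prop :=
  ∀ (X : Type u) (T : Set (X × X)), (∀ x y z, (x, y) ∈ T → (y, z) ∈ T → (x, z) ∈ T) →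
    ∀ v : ℕ → Set (X × X), (∀ n, v n ⊆ T) → s.ev T v = t.ev T v

section sem
variable {X : Type u} {T : Set (X × X)} {v : ℕ → Set (X × X)}

theorem ev_sub (hT : ∀ x y z, (x, y) ∈ T → (y, z) ∈ T → (x, z) ∈ T) (hv : ∀ n, v n ⊆ T) :
    ∀ s : Tm, s.ev T v ⊆ T
  | .var n => hv n
  | .imp _ t => Set.union_subset Set.diff_subset (ev_sub hT hv t)
  | .comp s t => fun _ ⟨_, h1, h2⟩ => hT _ _ _ (ev_sub hT hv s h1) (ev_sub hT hv t h2)

def dd (z : Tm) (L : List (Tm × Tm)) : Tm := L.foldr (fun r d => (r.1.imp r.2).imp d) z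

theorem dd_mem (z : Tm) {L : List (Tm × Tm)} {r : Tm × Tm} (hr : r ∈ L) {p : X × X} (hp : p ∈ T)
    (h1 : p ∈ r.1.ev T v) (h2 : p ∉ (dd z L).ev T v) : p ∈ r.2.ev T v := by
  induction L with
  | nil => cases hr
  | cons a L ih =>
    simp only [dd, List.foldr_cons, Tm.ev, Set.mem_union, Set.mem_diff, not_or] at h2
    rcases List.mem_cons.1 hr with rfl | hr
    · tauto
    · exact ih hr h2.2

theorem dd_z (z : Tm) {L : List (Tm × Tm)} {p : X × X} (h2 : p ∉ (dd z L).ev T v) :
    p ∉ z.ev T v := by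
  induction L with
  | nil => exact h2
  | cons a L ih => exact ih fun h => h2 (Or.inr h)

theorem dd_empty {z : Tm} (hz : ∀ p, p ∉ z.ev T v) {L : List (Tm × Tm)}
    (h : ∀ r ∈ L, r.1.ev T v ⊆ r.2.ev T v) (p : X × X) : p ∉ (dd z L).ev T v := by
  induction L with
  | nil => exact hz p
  | cons a L ih =>
    have h1 := ih fun r hr => h r (List.mem_cons_of_mem _ hr)
    have h2 := @h a List.mem_cons_self p
    simp only [dd, List.foldr_cons, Tm.ev, Set.mem_union, Set.mem_diff] at h1 ⊢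
    tauto

end sem

abbrev V (Q : Type) := Bool ⊕ (Bool × ℕ) ⊕ Q

section mach
variable {Q : Type} (M : CM Q) (e : V Q → ℕ) (K : ℕ)

def tz : Tm := .var (e (.inl false))
def tO : Tm := .var (e (.inl true))
def ta (r : ℕ) : Tm := .var (e (.inr (.inl (false, r))))
def tt (r : ℕ) : Tm := .var (e (.inr (.inl (true, r))))
def ty (q : Q) : Tm := .var (e (.inr (.inr q)))

def rhs (q : Q) (b : Bool) : Tm :=
  match M.nxt q b, M.eff q b, b with
  | none, _, _ => tz e
  | some q', none, true => ty e q'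
  | some q', some _, true => (ta e (M.reg q)).comp (ty e q')
  | some q', none, false => (ta e (M.reg q)).comp (ty e q')
  | some q', some true, false => (ta e (M.reg q)).comp ((ta e (M.reg q)).comp (ty e q'))
  | some q', some false, false => ty e q'

def rule : Fin K ⊕ (Bool × Fin K × Fin K) ⊕ Q × Bool → Tm × Tm
  | .inl r => (tO e, (tO e).comp (tt e r))
  | .inr (.inl (false, r, j)) => ((ta e r).comp (ta e j), (ta e j).comp (ta e r))
  | .inr (.inl (true, r, j)) =>
      ((tt e r).comp (ta e j), if r = j then (tt e r).comp (ta e j) else (ta e j).comp (tt e r))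
  | .inr (.inr (q, b)) =>
      ((if b then tt e (M.reg q) else ta e (M.reg q)).comp (ty e q), rhs M e q b)

def top : Tm := (tz e).imp (tz e)

def un (a b : Tm) : Tm := (a.imp b).imp b

def idl (d : Tm) : Tm :=
  un ((top e).comp d) (un (d.comp (top e)) ((top e).comp (d.comp (top e))))

def wd : ℕ → Tm
  | 0 => tO e
  | n + 1 => (wd n).comp (ta e 0)

variable {X : Type u} (T : Set (X × X)) (v : ℕ → Set (X × X))

def En (x : X) : List ℕ → X → Prop
  | [], p => (x, p) ∈ (tO e).ev T v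
  | j :: t, p => ∃ y, En x t y ∧ (y, p) ∈ (ta e j).ev T v

theorem sound (hK : ∀ q, M.reg q < K) (hT : ∀ x y z, (x, y) ∈ T → (y, z) ∈ T → (x, z) ∈ T)
    (hv : ∀ n, v n ⊆ T) {x w : X}
    (hr : ∀ i p p', (p = x ∧ (p', w) ∈ T ∨ (x, p) ∈ T ∧ ((p', w) ∈ T ∨ p' = w)) →
      (p, p') ∈ (rule M e K i).1.ev T v → (p, p') ∈ (rule M e K i).2.ev T v)
    (hz : ∀ p, (x, p) ∈ T → (p, w) ∉ (tz e).ev T v)
    {c : Q × St} (h : Halts (M.step 0) c) : ∀ t p, (∀ r, t.count r = c.2 r) → (∀ r ∈ t, r < K) →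
      En e T v x t p → (p, w) ∉ (ty e c.1).ev T v := by
  have sub := ev_sub hT hv
  have en : ∀ t p, En e T v x t p → (x, p) ∈ T := by
    intro t
    induction t with
    | nil => exact fun p h => sub _ h
    | cons j t ih => exact fun p ⟨y, h1, h2⟩ => hT _ _ _ (ih _ h1) (sub _ h2)
  have hZ : ∀ r < K, ∀ t : List ℕ, r ∉ t → (∀ r ∈ t, r < K) → ∀ p, En e T v x t p → (p, w) ∈ T →
      ∃ y, En e T v x t y ∧ (y, p) ∈ (tt e r).ev T v := by
    intro r hr' t
    induction t with
    | nil => exact fun _ _ p h hw => hr (.inl ⟨r, hr'⟩) x p (.inl ⟨rfl, hw⟩) h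
    | cons j t ih =>
      rintro h1 h2 p ⟨y, h3, h4⟩ hw
      simp only [List.mem_cons, not_or, forall_eq_or_imp] at h1 h2
      obtain ⟨y', h5, h6⟩ := ih h1.2 h2.2 y h3 (hT _ _ _ (sub _ h4) hw)
      have := hr (.inr (.inl (true, ⟨r, hr'⟩, ⟨j, h2.1⟩))) y' p (.inr ⟨en _ _ h5, .inl hw⟩)
        ⟨y, h6, h4⟩
      simp only [rule, Fin.mk.injEq, h1.1, if_false] at this
      obtain ⟨y2, h7, h8⟩ := this
      exact ⟨y2, ⟨y', h5, h7⟩, h8⟩
  have hA : ∀ r, ∀ t : List ℕ, r ∈ t → (∀ r ∈ t, r < K) → ∀ p, En e T v x t p → (p, w) ∈ T →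
      En e T v x (r :: t.erase r) p := by
    intro r t
    induction t with
    | nil => exact fun h => by cases h
    | cons j t ih =>
      rintro h1 h2 p h3 hw
      by_cases hj : j = r
      · subst hj; rwa [List.erase_cons_head]
      obtain ⟨y, h3, h4⟩ := h3
      have h1 : r ∈ t := (List.mem_cons.1 h1).resolve_left (Ne.symm hj)
      simp only [List.mem_cons, forall_eq_or_imp] at h2
      obtain ⟨y', h5, h6⟩ := ih h1 h2.2 y h3 (hT _ _ _ (sub _ h4) hw)
      obtain ⟨y2, h7, h8⟩ := hr (.inr (.inl (false, ⟨r, h2.2 r h1⟩, ⟨j, h2.1⟩))) y' p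
        (.inr ⟨en _ _ h5, .inl hw⟩) ⟨y, h6, h4⟩
      rw [List.erase_cons_tail (by simpa using hj)]
      exact ⟨y2, ⟨y', h5, h7⟩, h8⟩
  have key : ∀ (q : Q) (s : St) t p, (∀ r, t.count r = s r) → (∀ r ∈ t, r < K) →
      En e T v x t p → (p, w) ∈ (ty e q).ev T v → ∃ y, En e T v x (t.erase (M.reg q)) y ∧
        (y, w) ∈ (rhs M e q (M.tst 0 (q, s))).ev T v := by
    intro q s t p h1 h2 h3 h4
    by_cases hm : M.reg q ∈ t
    · have : M.tst 0 (q, s) = false := by
        simpa [CM.tst, CM.thr, ← h1, List.count_eq_zero] using hm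
      obtain ⟨y, h5, h6⟩ := hA _ t hm h2 p h3 (sub _ h4)
      exact ⟨y, h5, this ▸ hr (.inr (.inr (q, false))) y w (.inr ⟨en _ _ h5, .inr rfl⟩)
        ⟨p, h6, h4⟩⟩
    · have : M.tst 0 (q, s) = true := by
        simpa [CM.tst, CM.thr, ← h1, List.count_eq_zero] using hm
      obtain ⟨y, h5, h6⟩ := hZ _ (hK q) t hm h2 p h3 (sub _ h4)
      rw [List.erase_of_not_mem hm]
      exact ⟨y, h5, this ▸ hr (.inr (.inr (q, true))) y w (.inr ⟨en _ _ h5, .inr rfl⟩)
        ⟨p, h6, h4⟩⟩
  induction h with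
  | @stop c h =>
    intro t p h1 h2 h3 h4
    obtain ⟨y, h5, h6⟩ := key c.1 c.2 t p h1 h2 h3 h4
    have : M.nxt c.1 (M.tst 0 c) = none := by simpa [CM.step] using h
    simp only [rhs, this] at h6
    exact hz y (en _ _ h5) h6
  | @go c c' h _ ih =>
    intro t p h1 h2 h3 h4
    obtain ⟨y, h5, h6⟩ := key c.1 c.2 t p h1 h2 h3 h4
    simp only [CM.step, Option.map_eq_some_iff] at h
    obtain ⟨q', h, rfl⟩ := h
    have h7 : ∀ r ∈ t.erase (M.reg c.1), r < K := fun r hr => h2 r (List.mem_of_mem_erase hr)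
    have h8 : ∀ r, (t.erase (M.reg c.1)).count r = update c.2 (M.reg c.1) (c.2 (M.reg c.1) - 1) r := by
      intro r
      by_cases hr : r = M.reg c.1
      · subst hr; simp [h1]
      · simp [hr, List.count_erase_of_ne hr, h1]
    have h9 : M.tst 0 c = true ↔ c.2 (M.reg c.1) = 0 := by simp [CM.tst, CM.thr]
    have h10 := M.nodec c.1
    have h11 := hK c.1
    simp only [rhs, Prod.mk.eta, h] at h6
    generalize M.tst 0 c = b at *
    rcases he : M.eff c.1 b with _ | _ | _ <;> cases b <;> simp only [he] at h6 ih h10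
    · obtain ⟨y', h6, h12⟩ := h6
      refine ih (M.reg c.1 :: t.erase (M.reg c.1)) y' (fun r => ?_) (by simpa [h11] using h7)
        ⟨y, h5, h6⟩ h12
      by_cases hr : r = M.reg c.1
      · subst hr; simp [h8, app] at h9 ⊢; omega
      · simp [hr, h8, app, Ne.symm hr]
    · refine ih _ y (fun r => ?_) h7 h5 h6
      by_cases hr : r = M.reg c.1
      · subst hr; simp [h8, app] at h9 ⊢; omega
      · simp [hr, h8, app]
    · exact ih _ y h8 h7 h5 h6
    · exact h10 rfl
    · obtain ⟨y', h6, y2, h12, h13⟩ := h6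
      refine ih (M.reg c.1 :: M.reg c.1 :: t.erase (M.reg c.1)) y2 (fun r => ?_)
        (by simpa [h11] using h7) ⟨y', ⟨y, h5, h6⟩, h12⟩ h13
      by_cases hr : r = M.reg c.1
      · subst hr; simp [h8, app] at h9 ⊢; omega
      · simp [hr, h8, app, Ne.symm hr]
    · obtain ⟨y', h6, h12⟩ := h6
      refine ih (M.reg c.1 :: t.erase (M.reg c.1)) y' (fun r => ?_) (by simpa [h11] using h7)
        ⟨y, h5, h6⟩ h12
      by_cases hr : r = M.reg c.1
      · subst hr; simp [h8, app] at h9 ⊢; omega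
      · simp [hr, h8, app, Ne.symm hr]

def val : V Q → Set (ULift.{u} St × ULift.{u} St)
  | .inl false => ∅
  | .inl true => {p | p.2.down = fun _ => 0}
  | .inr (.inl (false, r)) => {p | p.2 = ⟨update p.1.down r (p.1.down r + 1)⟩}
  | .inr (.inl (true, r)) => {p | p.2 = p.1 ∧ p.1.down r = 0}
  | .inr (.inr q) => {p | ¬ Halts (M.step 0) (q, p.1.down)}

theorem model (he : Injective e) (i) :
    (rule M e K i).1.ev Set.univ (extend e (val.{u} M) fun _ => ∅) ⊆
      (rule M e K i).2.ev Set.univ (extend e (val.{u} M) fun _ => ∅) := by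
  rintro ⟨⟨s⟩, s'⟩
  rcases i with r | ⟨_ | _, r, j⟩ | ⟨q, b⟩
  · simp only [rule, tO, tt, Tm.ev, he.extend_apply, val, Set.mem_setOf_eq]
    exact fun h => ⟨_, h, rfl, congrFun h _⟩
  · simp only [rule, ta, Tm.ev, he.extend_apply, val, Set.mem_setOf_eq]
    rintro ⟨y, rfl, rfl⟩
    refine ⟨_, rfl, ?_⟩
    by_cases h : (r : ℕ) = j
    · rw [h]
    · simp [h, Ne.symm h, update_comm h]
  · simp only [rule]
    split_ifs with h
    · exact id
    simp only [ta, tt, Tm.ev, he.extend_apply, val, Set.mem_setOf_eq]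
    rintro ⟨y, ⟨rfl, h1⟩, rfl⟩
    refine ⟨_, rfl, rfl, ?_⟩
    simpa [Fin.val_inj, h] using h1
  · have h0 := M.nodec q
    rcases hn : M.nxt q b with _ | q' <;> rcases hf : M.eff q b with _ | _ | _ <;> cases b <;>
      simp only [rule, rhs, hn, hf, ta, tt, ty, tz, Tm.ev, he.extend_apply, val, Set.mem_setOf_eq,
        Bool.false_eq_true, if_false, if_true, Set.mem_empty_iff_false]
    all_goals first
      | exact (h0 hf).elim
      | (rintro ⟨y, rfl, h⟩
         first
          | exact h (.stop (by simp [CM.step, CM.tst, CM.thr, hn]))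
          | exact ⟨_, rfl, fun h' => h (.go (by simp [CM.step, CM.tst, CM.thr, hn, hf, app]) h')⟩
          | exact fun h' => h (.go (by simp [CM.step, CM.tst, CM.thr, hn, hf, app]) h')
          | exact ⟨_, rfl, _, rfl,
              fun h' => h (.go (by simp [CM.step, CM.tst, CM.thr, hn, hf, app]) h')⟩)
      | (rintro ⟨_, ⟨rfl, h1⟩, h⟩
         first
          | exact h (.stop (by simp [CM.step, CM.tst, CM.thr, hn, h1]))
          | exact fun h' => h (.go (by simp [CM.step, CM.tst, CM.thr, hn, hf, app, h1]) h')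
          | exact ⟨_, rfl,
              fun h' => h (.go (by simp [CM.step, CM.tst, CM.thr, hn, hf, app, h1]) h')⟩)

theorem main (hK : ∀ q, M.reg q < K) (he : Injective e) {L : List (Tm × Tm)}
    (hL : ∀ r, r ∈ L ↔ ∃ i, rule M e K i = r) (q : Q) (n : ℕ) :
    Valid.{u} (((wd e n).comp (ty e q)).imp (idl e (dd (tz e) L))) (top e) ↔
      Halts (M.step 0) (q, init n) := by
  constructor
  · intro h
    have h := h _ Set.univ (by simp) (extend e (val.{u} M) fun _ => ∅) (by simp)
    have h1 := dd_empty (T := Set.univ) (v := extend e (val.{u} M) fun _ => ∅) (z := tz e)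
      (L := L) (by simp [tz, Tm.ev, he.extend_apply, val]) fun r hr => by
        obtain ⟨i, rfl⟩ := (hL r).1 hr
        exact model M e K he i
    have h2 : ∀ n, (⟨init 0⟩, ⟨init n⟩) ∈
        (wd e n).ev Set.univ (extend e (val.{u} M) fun _ => ∅) := by
      intro n
      induction n with
      | zero => simp [wd, tO, Tm.ev, he.extend_apply, val, init]
      | succ n ih => exact ⟨_, ih, by simp [ta, Tm.ev, he.extend_apply, val, init]⟩
    have h3 := Set.ext_iff.1 h (⟨init 0⟩, ⟨init 0⟩)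
    simp only [Tm.ev, idl, un, top, Set.mem_union, Set.mem_diff, Set.mem_setOf_eq, h1,
      Set.mem_univ, true_and, false_and, and_false, exists_false, not_false_eq_true, or_false,
      not_true_eq_false, not_exists, not_and] at h3
    have h4 := h3.2 (em' _) _ (h2 n)
    simpa [ty, Tm.ev, he.extend_apply, val] using h4
  · intro h X T hT v hv
    have sub := ev_sub hT hv
    have tp : (top e).ev T v = T := Set.diff_union_of_subset (sub _)
    rw [tp]
    refine (sub _).antisymm fun ⟨x, w⟩ hp => ?_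
    by_contra hn
    simp only [Tm.ev, idl, un, tp, Set.mem_union, Set.mem_diff, Set.mem_setOf_eq, hp, true_and,
      not_or, not_not] at hn
    obtain ⟨⟨p, h1, h2⟩, hn⟩ := hn
    have n1 : ∀ y, (x, y) ∈ T → (y, w) ∉ (dd (tz e) L).ev T v :=
      fun y a b => hn.1 ⟨⟨y, a, b⟩, hn.2.1, hn.2.2⟩
    have n2 : ∀ y, (y, w) ∈ T → (x, y) ∉ (dd (tz e) L).ev T v :=
      fun y a b => hn.2.1 ⟨⟨y, b, a⟩, hn.2.2⟩
    have n3 : ∀ y y', (x, y) ∈ T → (y', w) ∈ T → (y, y') ∉ (dd (tz e) L).ev T v :=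
      fun y y' a b c => hn.2.2 ⟨y, a, y', c, b⟩
    refine sound M e K T v hK hT hv (x := x) (w := w) (fun i p p' a b => ?_)
      (fun p a => dd_z _ (n1 p a)) h (List.replicate n 0) p (fun r => ?_) ?_ ?_ h2
    · refine dd_mem (tz e) ((hL _).2 ⟨i, rfl⟩) (sub _ b) b ?_
      rcases a with ⟨rfl, a⟩ | ⟨a, c | rfl⟩
      exacts [n2 _ a, n3 _ _ a c, n1 _ a]
    · by_cases hr : r = 0
      · simp [hr, init]
      · simp [hr, init, List.count_replicate, Ne.symm hr]
    · intro r hr
      rw [List.eq_of_mem_replicate hr]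
      exact Nat.zero_lt_of_lt (hK q)
    · clear h h2
      induction n generalizing p with
      | zero => exact h1
      | succ n ih =>
        obtain ⟨y, a, b⟩ := h1
        exact ⟨y, ih y a, b⟩

end mach

theorem result : ¬ ∃ f : ℕ × ℕ →. Bool, Partrec f ∧
    ∀ s t : Tm, ∃ b ∈ f (s.code, t.code), (b = true ↔ Valid.{u} s t) := by
  rintro ⟨f, hf, h⟩
  obtain ⟨Q, _, M, q, hM⟩ := Pool.Agent.Lib.helper21.Queue.exists_cm0
  obtain ⟨K, hK⟩ := (Set.finite_range M.reg).bddAbove
  obtain ⟨e, he⟩ := Countable.exists_injective_nat (V Q)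
  obtain ⟨L, hL⟩ : ∃ L : List (Tm × Tm), ∀ r, r ∈ L ↔ ∃ i, rule M e (K + 1) i = r :=
    ⟨(Set.finite_range (rule M e (K + 1))).toFinset.toList, fun r => by
      rw [Finset.mem_toList, Set.Finite.mem_toFinset]; rfl⟩
  have key := main.{u} M e (K + 1) (fun q => Nat.lt_succ_of_le (hK ⟨q, rfl⟩)) he hL q
  choose b hb1 hb2 using fun n =>
    h (((wd e n).comp (ty e q)).imp (idl e (dd (tz e) L))) (top e)
  have h1 : Primrec fun n => (wd e n).code := by
    refine (Primrec.nat_rec₁ (tO e).code (f := fun _ c => Nat.pair 2 (Nat.pair c (ta e 0).code))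
      (Primrec₂.natPair.comp (.const _) (Primrec₂.natPair.comp .snd (.const _))).to₂).of_eq ?_
    intro n
    induction n with
    | zero => rfl
    | succ n ih => exact congrArg (fun c => Nat.pair 2 (Nat.pair c (ta e 0).code)) ih
  have hb : Computable b := (hf.comp ((Primrec₂.natPair.comp (.const 1) (Primrec₂.natPair.comp
    (Primrec₂.natPair.comp (.const 2) (Primrec₂.natPair.comp h1 (.const _))) (.const _))).pair
      (.const _)).to_comp).of_eq_tot hb1
  exact hM (ComputablePred.computable_iff.2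
    ⟨b, hb, funext fun n => propext ((key n).symm.trans (hb2 n).symm)⟩)

end Pool.Agent.Results.MP_86fe4b_lc.Undecidable
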